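import Pool.Agent.helper40.FR.B

/-!
# Project FR (MP_f00966_al), module RG: `𝒪` is a discrete valuation ring, `Ĥ_j` is nonempty
-/

namespace Pool.Agent.helper40.FR

open Polynomial Finset Pool.Agent.helper40.Laz

variable {p : ℕ} [hp : Fact p.Prime]

theorem rg_exists_pow {x : OO p} (hx : x ≠ 0) : ∃ k : ℕ, ∃ u : OO p, IsUnit u ∧ x = pi p ^ k * u := by
  have hN : IsNoetherianRing (OO p) := IsNoetherianRing.of_finite ℤ_[p] (OO p)
  by_contra hcon
  push Not at hcon
  apply hx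
  have h1 : ∀ n : ℕ, x ∈ PP p ^ n := by
    intro n
    rw [mem_PP_pow]
    by_contra h2
    obtain ⟨k, _, u, hu, hxu⟩ := exists_unit h2
    exact hcon k u hu hxu
  have h2 : ⨅ i : ℕ, PP p ^ i = ⊥ := Ideal.iInf_pow_eq_bot_of_isLocalRing _ PP_isMaximal.ne_top
  have h3 : x ∈ ⨅ i : ℕ, PP p ^ i := Ideal.mem_iInf.2 h1
  rw [h2] at h3
  exact h3

theorem OO_isDomain : IsDomain (OO p) := by
  refine @NoZeroDivisors.to_isDomain (OO p) _ _ ⟨?_⟩
  intro x y hxy
  by_contra hcon
  push Not at hcon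
  obtain ⟨k, u, hu, rfl⟩ := rg_exists_pow hcon.1
  rw [mul_assoc] at hxy
  have h1 := pi_pow_inj k hxy
  exact hcon.2 (hu.mul_right_eq_zero.1 h1)

theorem rg_irred : Irreducible (pi p) := by
  refine ⟨fun h => ?_, fun a b hab => ?_⟩
  · rw [isUnit_iff, kap_pi] at h
    exact h rfl
  · have h1 : kap p a * kap p b = 0 := by rw [← map_mul, ← hab, kap_pi]
    rcases mul_eq_zero.1 h1 with h2 | h2
    · right
      obtain ⟨c, rfl⟩ := (kap_eq_zero_iff a).1 h2
      refine IsUnit.of_mul_eq_one c ?_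
      have h3 : pi p ^ 1 * (b * c) = pi p ^ 1 * 1 := by
        rw [pow_one, mul_one]
        conv_rhs => rw [hab]
        ring
      exact pi_pow_cancel 1 h3
    · left
      obtain ⟨c, rfl⟩ := (kap_eq_zero_iff b).1 h2
      refine IsUnit.of_mul_eq_one c ?_
      have h3 : pi p ^ 1 * (a * c) = pi p ^ 1 * 1 := by
        rw [pow_one, mul_one]
        conv_rhs => rw [hab]
        ring
      exact pi_pow_cancel 1 h3

theorem OO_dvr [IsDomain (OO p)] : IsDiscreteValuationRing (OO p) := by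
  refine IsDiscreteValuationRing.ofHasUnitMulPowIrreducibleFactorization ⟨pi p, rg_irred, ?_⟩
  intro x hx
  obtain ⟨k, u, ⟨v, rfl⟩, h⟩ := rg_exists_pow hx
  exact ⟨k, v, h.symm⟩

/-! ### the automorphisms `θ ↦ θ^a` -/

theorem rg_geom (a : ℕ) : pi p * ∑ i ∈ range a, th p ^ i = th p ^ a - 1 := by
  have h := geom_sum_mul (th p) a
  unfold pi
  rw [mul_comm]
  exact h

theorem rg_kap_geom (a : ℕ) : kap p (∑ i ∈ range a, th p ^ i) = a := by
  rw [map_sum]
  simp only [map_pow, kap_th, one_pow, sum_const, card_range, nsmul_eq_mul, mul_one]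

theorem rg_root (a : ℕ) (ha : ¬ p ∣ a) :
    (cyclotomic p ℤ_[p]).eval₂ (algebraMap ℤ_[p] (OO p)) (th p ^ a) = 0 := by
  have := OO_isDomain (p := p)
  refine (congrArg (fun f => eval₂ (algebraMap ℤ_[p] (OO p)) (th p ^ a) f)
    (cyclotomic_prime ℤ_[p] p)).trans ?_
  rw [eval₂_finsetSum]
  simp only [eval₂_pow, eval₂_X]
  have h1 : (∑ i ∈ range p, (th p ^ a) ^ i) * (th p ^ a - 1) = 0 := by
    rw [geom_sum_mul, ← pow_mul, mul_comm a p, pow_mul, th_pow, one_pow, sub_self]
  rcases mul_eq_zero.1 h1 with h2 | h2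
  · exact h2
  · exfalso
    rw [← rg_geom] at h2
    have h3 := pi_mul_inj h2
    have h4 := rg_kap_geom (p := p) a
    rw [h3, map_zero] at h4
    exact ha ((ZMod.natCast_eq_zero_iff a p).1 h4.symm)

/-- the endomorphism `θ ↦ θ^a` -/
noncomputable def rgS (a : ℕ) (ha : ¬ p ∣ a) : OO p →+* OO p :=
  AdjoinRoot.lift (algebraMap ℤ_[p] (OO p)) (th p ^ a) (rg_root a ha)

theorem rgS_th (a : ℕ) (ha : ¬ p ∣ a) : rgS a ha (th p) = th p ^ a := AdjoinRoot.lift_root _

theorem rgS_algebraMap (a : ℕ) (ha : ¬ p ∣ a) (t : ℤ_[p]) :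
    rgS a ha (algebraMap ℤ_[p] (OO p) t) = algebraMap ℤ_[p] (OO p) t := AdjoinRoot.lift_of _

theorem rgS_smul (a : ℕ) (ha : ¬ p ∣ a) (t : ℤ_[p]) (x : OO p) : rgS a ha (t • x) = t • rgS a ha x := by
  rw [Algebra.smul_def, map_mul, rgS_algebraMap, ← Algebra.smul_def]

theorem rgS_pi (a : ℕ) (ha : ¬ p ∣ a) : rgS a ha (pi p) = pi p * ∑ i ∈ range a, th p ^ i := by
  rw [rg_geom]
  unfold pi
  rw [map_sub, rgS_th, map_one]

theorem rgS_kap (a : ℕ) (ha : ¬ p ∣ a) (x : OO p) : kap p (rgS a ha x) = kap p x := by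
  obtain ⟨t, y, rfl⟩ := exists_add x
  rw [map_add, map_mul, rgS_algebraMap, rgS_pi, map_add, map_add, map_mul, map_mul, map_mul, kap_pi]
  ring

theorem rgS_unit (a : ℕ) (ha : ¬ p ∣ a) : IsUnit (∑ i ∈ range a, th p ^ i : OO p) := by
  rw [isUnit_iff, rg_kap_geom]
  intro h
  exact ha ((ZMod.natCast_eq_zero_iff a p).1 h)

section

variable (a b : ℕ) (ha : ¬ p ∣ a) (hb : ¬ p ∣ b)

/-- the form `σ_a(x) σ_b(y) - σ_b(x) σ_a(y)` -/
noncomputable def rgF (x y : OO p) : OO p := rgS a ha x * rgS b hb y - rgS b hb x * rgS a ha y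

theorem rgF_kap (x y : OO p) : pi p ∣ rgF a b ha hb x y := by
  rw [← kap_eq_zero_iff]
  unfold rgF
  rw [map_sub, map_mul, map_mul, rgS_kap, rgS_kap, rgS_kap, rgS_kap, sub_self]

theorem rgF_th (hab : (a + b) % p = 1 % p) (x y : OO p) :
    rgF a b ha hb (th p * x) (th p * y) = th p * rgF a b ha hb x y := by
  have h1 : th p ^ a * th p ^ b = th p := by
    rw [← pow_add]
    have h2 : ∀ n : ℕ, th p ^ n = th p ^ (n % p) := by
      intro n
      conv_lhs => rw [← Nat.div_add_mod n p]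
      rw [pow_add, pow_mul, th_pow, one_pow, one_mul]
    rw [h2, hab, ← h2, pow_one]
  unfold rgF
  rw [map_mul, map_mul, map_mul, map_mul, rgS_th, rgS_th]
  calc _ = th p ^ a * th p ^ b * (rgS a ha x * rgS b hb y - rgS b hb x * rgS a ha y) := by ring
    _ = _ := by rw [h1]

theorem rgF_pow (j : ℕ) (x y : OO p) : rgF a b ha hb (pi p ^ j * x) (pi p ^ j * y) =
    pi p ^ (2 * j) * ((∑ i ∈ range a, th p ^ i) ^ j * (∑ i ∈ range b, th p ^ i) ^ j) *
      rgF a b ha hb x y := by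
  unfold rgF
  simp only [map_mul, map_pow, rgS_pi]
  ring

end

theorem HH_nonempty (hp5 : 5 ≤ p) (j : ℕ) : Nonempty (HH p j) := by
  have ha : ¬ p ∣ 2 := fun h => by have := Nat.le_of_dvd (by norm_num) h; omega
  have hb : ¬ p ∣ p - 1 := fun h => by have := Nat.le_of_dvd (by omega) h; omega
  have hab : (2 + (p - 1)) % p = 1 % p := by
    rw [show 2 + (p - 1) = 1 + p by omega, Nat.add_mod_right]
  have hmem : ∀ x y : ↥(PP p ^ j), rgF 2 (p - 1) ha hb x y ∈ PP p ^ (2 * j + 1) := by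
    intro x y
    obtain ⟨x', hx'⟩ := mem_PP_pow.1 x.2
    obtain ⟨y', hy'⟩ := mem_PP_pow.1 y.2
    rw [hx', hy', rgF_pow, mem_PP_pow, pow_succ]
    exact mul_dvd_mul (dvd_mul_right _ _) (rgF_kap _ _ _ _ _ _)
  let g : ↥(PP p ^ j) →ₗ[ℤ_[p]] ↥(PP p ^ j) →ₗ[ℤ_[p]] OO p :=
    LinearMap.mk₂ ℤ_[p] (fun x y => rgF 2 (p - 1) ha hb (x : OO p) (y : OO p))
      (fun x y z => by
        show rgF 2 (p - 1) ha hb ((x : OO p) + y) z = _
        unfold rgF
        rw [map_add, map_add]; ring)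
      (fun t x y => by
        show rgF 2 (p - 1) ha hb (t • (x : OO p)) y = _
        unfold rgF
        rw [rgS_smul, rgS_smul, smul_sub, smul_mul_assoc, smul_mul_assoc])
      (fun x y z => by
        show rgF 2 (p - 1) ha hb x ((y : OO p) + z) = _
        unfold rgF
        rw [map_add, map_add]; ring)
      (fun t x y => by
        show rgF 2 (p - 1) ha hb x (t • (y : OO p)) = _
        unfold rgF
        rw [rgS_smul, rgS_smul, smul_sub, mul_smul_comm, mul_smul_comm])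
  have hg : ∀ x y, g x y = rgF 2 (p - 1) ha hb (x : OO p) (y : OO p) := fun x y => rfl
  refine ⟨⟨g, fun x => ?_, fun x y => ?_, ?_⟩⟩
  · rw [hg]; unfold rgF; ring
  · rw [hg, hg]
    exact rgF_th 2 (p - 1) ha hb hab x y
  · apply le_antisymm
    · rw [Submodule.span_le]
      rintro _ ⟨⟨x, y⟩, rfl⟩
      exact hmem x y
    · set S := Submodule.span ℤ_[p] (Set.range fun q : ↥(PP p ^ j) × ↥(PP p ^ j) => g q.1 q.2) with hS
      have hth : ∀ z ∈ S, th p * z ∈ S := by
        intro z hz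
        refine Submodule.span_induction (p := fun z _ => th p * z ∈ S) ?_ ?_ ?_ ?_ hz
        · rintro _ ⟨⟨x, y⟩, rfl⟩
          refine Submodule.subset_span ⟨(th p • x, th p • y), ?_⟩
          exact rgF_th 2 (p - 1) ha hb hab x y
        · rw [mul_zero]; exact zero_mem _
        · intro x y _ _ hx hy; rw [mul_add]; exact add_mem hx hy
        · intro t x _ hx; rw [mul_smul_comm]; exact Submodule.smul_mem _ _ hx
      have hpow : ∀ n : ℕ, ∀ z ∈ S, th p ^ n * z ∈ S := by
        intro n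
        induction n with
        | zero => intro z hz; rw [pow_zero, one_mul]; exact hz
        | succ n ih => intro z hz; rw [pow_succ', mul_assoc]; exact hth _ (ih z hz)
      have hall : ∀ w z : OO p, z ∈ S → w * z ∈ S := by
        intro w z hz
        obtain ⟨f, rfl⟩ := AdjoinRoot.mk_surjective w
        induction f using Polynomial.induction_on' with
        | add f g hf hg => rw [map_add, add_mul]; exact add_mem hf hg
        | monomial n t =>
          have h6 : AdjoinRoot.mk (cyclotomic p ℤ_[p]) (monomial n t) = t • th p ^ n := by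
            rw [← C_mul_X_pow_eq_monomial, map_mul, AdjoinRoot.mk_C, map_pow, AdjoinRoot.mk_X,
              Algebra.smul_def]
            rfl
          rw [h6, smul_mul_assoc]
          exact Submodule.smul_mem _ _ (hpow n z hz)
      -- a generator
      let x₀ : ↥(PP p ^ j) := ⟨pi p ^ j * 1, mem_PP_pow.2 (dvd_mul_right _ _)⟩
      let y₀ : ↥(PP p ^ j) := ⟨pi p ^ j * th p, mem_PP_pow.2 (dvd_mul_right _ _)⟩
      have h3 : ¬ p ∣ 3 := fun h => by have := Nat.le_of_dvd (by norm_num) h; omega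
      have h0 : ∃ u : OO p, IsUnit u ∧ g x₀ y₀ = pi p ^ (2 * j + 1) * u := by
        rw [hg]
        show ∃ u : OO p, IsUnit u ∧ rgF 2 (p - 1) ha hb (pi p ^ j * 1) (pi p ^ j * th p) = _
        rw [rgF_pow]
        have h4 : rgF 2 (p - 1) ha hb 1 (th p) = pi p * (-(th p ^ (p - 1)) * ∑ i ∈ range 3, th p ^ i) := by
          unfold rgF
          rw [map_one, map_one, rgS_th, rgS_th, one_mul, one_mul]
          have h5 := rg_geom (p := p) 3
          have h6 : th p ^ (p - 1) * th p ^ 3 = th p ^ 2 := by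
            rw [← pow_add, show p - 1 + 3 = p + 2 by omega, pow_add, th_pow, one_mul]
          calc th p ^ (p - 1) - th p ^ 2 = -(th p ^ (p - 1)) * (th p ^ 3 - 1) := by
                rw [← h6]; ring
            _ = _ := by rw [← h5]; ring
        rw [h4]
        have h7 : IsUnit (th p ^ (p - 1)) := by
          rw [isUnit_iff, map_pow, kap_th, one_pow]
          exact one_ne_zero
        refine ⟨((∑ i ∈ range 2, th p ^ i) ^ j * (∑ i ∈ range (p - 1), th p ^ i) ^ j) *
          (-(th p ^ (p - 1)) * ∑ i ∈ range 3, th p ^ i), ?_, by ring⟩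
        exact (((rgS_unit 2 ha).pow j).mul ((rgS_unit (p - 1) hb).pow j)).mul
          (h7.neg.mul (rgS_unit 3 h3))
      obtain ⟨u, hu, hgu⟩ := h0
      obtain ⟨v, rfl⟩ := hu
      intro z hz
      obtain ⟨w, rfl⟩ := mem_PP_pow.1 (show z ∈ PP p ^ (2 * j + 1) from hz)
      have h5 : pi p ^ (2 * j + 1) * w = (w * ((v⁻¹ : (OO p)ˣ) : OO p)) * g x₀ y₀ := by
        rw [hgu]
        calc pi p ^ (2 * j + 1) * w = pi p ^ (2 * j + 1) * w * (((v⁻¹ : (OO p)ˣ) : OO p) * v) := by
              rw [Units.inv_mul, mul_one]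
          _ = _ := by ring
      rw [h5]
      exact hall _ _ (Submodule.subset_span ⟨(x₀, y₀), rfl⟩)

end Pool.Agent.helper40.FR
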